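import Pool.Agent.helper45.BR.Spec

/-!
# Project br: module EMP (the interior of the filled Julia set is empty)
-/

set_option autoImplicit false

open Complex Metric Set Filter Topology MeasureTheory MPS Pool.Agent.helper98.ILF
  Pool.Agent.helper16.Multibrot

noncomputable section

namespace BR

theorem EMP (hWSQ : WSQ_stmt) (hNWD : NWD_stmt) : EMP_stmt := by
  intro n c hn hc hAR
  rw [← not_nonempty_iff_eq_empty]
  intro h
  obtain ⟨U, hU⟩ := hWSQ n c hn hc hAR h
  exact hNWD n c U hn hc hU

end BR
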